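import Pool.Agent.H30.Diam.Stubs2
import Pool.Agent.H82.Diam.Capt
import Pool.Agent.H92.Diam.Exact
import Pool.Agent.H30.Diam.Struct

set_option autoImplicit false

/-! Project DIAM: common lemmas for DIAM27, DIAM28, DIAM30. -/

namespace Pool.Agent.H12.Diam

open Finset Pool.Agent.H30.Diam Pool.Agent.H92.Diam

section
variable {V : Type} [Fintype V] [DecidableEq V]

/-- the high levels are negligible -/
theorem high_le {d : ℕ} {𝓔 : Finset (Finset V)} (hF : Fam d 𝓔) (hG : Good d 𝓔 1) :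
    ((𝓔.filter (fun F => d + 4 ≤ F.card)).card : ℝ) ≤ 1 / 1000 * U d (Fintype.card V) := by
  have hU := Pool.Agent.H92.Diam.U_nonneg d (Fintype.card V)
  have h1 : 𝓔.filter (fun F => d + 4 ≤ F.card) ⊆
      (Ico 2 (Fintype.card V + 1)).biUnion (fun i => lev 𝓔 (d + 2 * i)) := by
    intro F hFm
    rw [mem_filter] at hFm
    have h2 := hF.par F hFm.1
    have h3 : F.card ≤ Fintype.card V := card_le_univ F
    rw [mem_biUnion]
    refine ⟨(F.card - d) / 2, ?_, ?_⟩
    · rw [mem_Ico]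
      omega
    · rw [lev, mem_filter]
      exact ⟨hFm.1, by omega⟩
  calc ((𝓔.filter (fun F => d + 4 ≤ F.card)).card : ℝ)
      ≤ (((Ico 2 (Fintype.card V + 1)).biUnion (fun i => lev 𝓔 (d + 2 * i))).card : ℝ) := by
        exact_mod_cast card_le_card h1
    _ ≤ ∑ i ∈ Ico 2 (Fintype.card V + 1), ((lev 𝓔 (d + 2 * i)).card : ℝ) := by
        exact_mod_cast card_biUnion_le
    _ ≤ ∑ i ∈ Ico 2 (Fintype.card V + 1), (1 / 2000 * (1 / 2 : ℝ) ^ i) *
        U d (Fintype.card V) := by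
        refine sum_le_sum fun i hi => ?_
        rw [mem_Ico] at hi
        refine (hG i (by omega)).trans (mul_le_mul_of_nonneg_right ?_ hU)
        unfold eps
        have h4 : ((1 : ℝ) / 4096) ^ i = (1 / 2048) ^ i * (1 / 2) ^ i := by
          rw [← mul_pow]; norm_num
        have h5 : ((1 : ℝ) / 2048) ^ i ≤ (1 / 2048) ^ 1 :=
          pow_le_pow_of_le_one (by norm_num) (by norm_num) (by omega)
        have h6 : (0 : ℝ) ≤ (1 / 2) ^ i := by positivity
        rw [h4]
        nlinarith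
    _ = (1 / 2000 * U d (Fintype.card V)) * ∑ i ∈ Ico 2 (Fintype.card V + 1), (1 / 2 : ℝ) ^ i := by
        rw [mul_sum]
        refine sum_congr rfl fun i _ => ?_
        ring
    _ ≤ (1 / 2000 * U d (Fintype.card V)) * 2 := by
        refine mul_le_mul_of_nonneg_left ?_ (by positivity)
        refine le_trans ?_ (sum_geometric_two_le (Fintype.card V + 1))
        refine sum_le_sum_of_subset_of_nonneg ?_ (fun i _ _ => by positivity)
        intro i hi
        rw [mem_Ico] at hi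
        rw [mem_range]
        exact hi.2
    _ = 1 / 1000 * U d (Fintype.card V) := by ring

end

section
variable {V : Type} [Fintype V] [DecidableEq V]

/-- a popular leftover -/
theorem pop_of (htail : S_tail) {d m : ℕ} {q : ℝ} (hpar : Par d m q)
    (hV : Fintype.card V = m) {𝓔 G : Finset (Finset V)} {j : ℕ} (hj : j ≤ 1)
    (hG : G ⊆ lev 𝓔 (d + 2 * j)) (hc : tau * U d m ≤ G.card) {t : Finset V}
    (ht : t.card = 2 * j + 1) (hsub : ∀ F ∈ G, t ⊆ F) :
    1 - 4 * q ≤ Ev q (fun W => ind (lo G W = t)) := by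
  have hq0 := hpar.q0.le
  have hq1 : q ≤ 1 := hpar.q1.trans (by norm_num)
  obtain ⟨hne, h1⟩ := Pool.Agent.H82.Diam.tail_le htail hpar hV hj hG hc
  have h2 : Ev q (fun W => ind ((lo G W).card ≤ 2 * j + 1)) ≤
      Ev q (fun W => ind (lo G W = t) + ∑ z ∈ t, ind (z ∈ W)) := by
    refine Pool.Agent.H82.Diam.Ev_mono hq0 hq1 _ _ fun W => ?_
    by_cases h3 : (lo G W).card ≤ 2 * j + 1
    · rw [Pool.Agent.H82.Diam.ind_true h3]
      by_cases h4 : ∃ z ∈ t, z ∈ W
      · obtain ⟨z, hz, hzW⟩ := h4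
        have h5 : ind (z ∈ W) ≤ ∑ z ∈ t, ind (z ∈ W) :=
          single_le_sum (f := fun z => ind (z ∈ W))
            (fun z _ => Pool.Agent.H82.Diam.ind_nonneg _) hz
        rw [Pool.Agent.H82.Diam.ind_true hzW] at h5
        linarith [Pool.Agent.H82.Diam.ind_nonneg (lo G W = t)]
      · have h5 : t ⊆ lo G W := by
          intro z hz
          unfold lo
          rw [mem_sdiff]
          exact ⟨hsub _ (wit_mem hne W) hz, fun h => h4 ⟨z, hz, h⟩⟩
        have h6 : lo G W = t := (eq_of_subset_of_card_le h5 (by rw [ht]; exact h3)).symm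
        rw [Pool.Agent.H82.Diam.ind_true h6]
        have : 0 ≤ ∑ z ∈ t, ind (z ∈ W) :=
          sum_nonneg fun z _ => Pool.Agent.H82.Diam.ind_nonneg _
        linarith
    · rw [Pool.Agent.H82.Diam.ind_false h3]
      have : 0 ≤ ∑ z ∈ t, ind (z ∈ W) :=
        sum_nonneg fun z _ => Pool.Agent.H82.Diam.ind_nonneg _
      linarith [Pool.Agent.H82.Diam.ind_nonneg (lo G W = t)]
  rw [Ev_add, Ev_sum] at h2
  have h3 : ∑ z ∈ t, Ev q (fun W => ind (z ∈ W)) = t.card * q := by
    rw [sum_congr rfl (fun z _ => Pool.Agent.H82.Diam.Ev_mem q z), sum_const, nsmul_eq_mul]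
  rw [h3, ht] at h2
  have h4 : (((2 * j + 1 : ℕ) : ℝ)) ≤ 3 := by
    have : 2 * j + 1 ≤ 3 := by omega
    exact_mod_cast this
  have h5 : (((2 * j + 1 : ℕ) : ℝ)) * q ≤ 3 * q := mul_le_mul_of_nonneg_right h4 hq0
  linarith

/-- the four popular leftovers of a family of type K -/
theorem popK (htail : S_tail) {d m : ℕ} {q : ℝ} (hpar : Par d m q)
    (hV : Fintype.card V = m) {𝓔 : Finset (Finset V)} {Q : Finset V} (hK : TypeK d 𝓔 Q)
    {t : Finset V} (ht : (∃ z ∈ Q, t = {z}) ∨ t = Q) :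
    ∃ i ≤ 1, ∃ G ⊆ lev 𝓔 (d + 2 * i), tau * U d m ≤ G.card ∧ t.card = 2 * i + 1 ∧
      1 - 4 * q ≤ Ev q (fun W => ind (lo G W = t)) := by
  obtain ⟨-, hQ, -, -, h3, h4⟩ := hK
  have hU := Pool.Agent.H92.Diam.U_nonneg d m
  have hdt : tau ≤ del / 10 := by
    unfold tau del
    norm_num
  rw [hV] at h3 h4
  rcases ht with ⟨z, hz, rfl⟩ | rfl
  · have hc := (mul_le_mul_of_nonneg_right hdt hU).trans (h4 z hz)
    refine ⟨0, by norm_num, (lev 𝓔 d).filter (fun F => F ∩ Q = {z}), ?_, hc, by simp, ?_⟩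
    · exact filter_subset _ _
    · refine pop_of htail hpar hV (𝓔 := 𝓔) (j := 0) (by norm_num) (filter_subset _ _) hc
        (by simp) ?_
      intro F hF
      rw [mem_filter] at hF
      rw [← hF.2]
      exact inter_subset_left
  · have hc := (mul_le_mul_of_nonneg_right hdt hU).trans h3
    refine ⟨1, le_rfl, (lev 𝓔 (d + 2)).filter (fun F => t ⊆ F), ?_, hc, by rw [hQ], ?_⟩
    · exact filter_subset _ _
    · refine pop_of htail hpar hV (𝓔 := 𝓔) (j := 1) le_rfl (filter_subset _ _) hc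
        (by rw [hQ]) ?_
      intro F hF
      rw [mem_filter] at hF
      exact hF.2

end

end Pool.Agent.H12.Diam
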