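import Pool.Agent.H12.Diam.Common

set_option autoImplicit false

/-! Project DIAM, DIAM30: both classes of type K. -/

namespace Pool.Agent.H12.Diam

open Finset Pool.Agent.H30.Diam Pool.Agent.H92.Diam

/-- complements of even subsets of a triple -/
theorem odd_type {V : Type} [DecidableEq V] {Q A : Finset V} (hQ : Q.card = 3) (hA : A ⊆ Q)
    (hAe : Even A.card) : (∃ z ∈ Q, Q \ A = {z}) ∨ Q \ A = Q := by
  have h1 := card_sdiff_of_subset hA
  have h2 := card_le_card hA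
  rw [Nat.even_iff] at hAe
  rw [hQ] at h1 h2
  have h3 : A.card = 0 ∨ A.card = 2 := by omega
  rcases h3 with h3 | h3
  · right
    rw [card_eq_zero.1 h3, sdiff_empty]
  · left
    have h4 : (Q \ A).card = 1 := by omega
    obtain ⟨z, hz⟩ := card_eq_one.1 h4
    refine ⟨z, ?_, hz⟩
    have : z ∈ Q \ A := by rw [hz]; exact mem_singleton_self z
    exact (mem_sdiff.1 this).1

theorem kkcase (htail : S_tail) (hsamp : S_samp) (hmfin : S_mfin) (hexact : S_exact) :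
    S_kkcase := by
  intro d m q hpar V _ _ hV 𝓐 𝓑 D Q Q' hC hKA hKB
  have hd := hpar.d1
  have hq0 := hpar.q0
  have hq1 := hpar.q1
  have hlarge := hpar.large
  have hU := Pool.Agent.H92.Diam.U_nonneg d m
  -- the hypothesis of `S_mfin`
  have hyp : ∀ A ⊆ Q, Even A.card → ∀ A' ⊆ Q', Even A'.card →
      (symmDiff (symmDiff (Q \ A) (Q' \ A')) D).card ≤ 3 := by
    intro A hA hAe A' hA' hAe'
    obtain ⟨i, hi, G, hG, hGc, hGt, hGp⟩ := popK htail hpar hV hKA (odd_type hKA.2.1 hA hAe)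
    obtain ⟨j, hj, B, hB, hBc, hBt, hBp⟩ := popK htail hpar hV hKB (odd_type hKB.2.1 hA' hAe')
    obtain ⟨W, W', -, hp1, hp2, -, -, -, -, -, -, hfin⟩ := hsamp d m q hpar V hV 𝓐 𝓑 D hC i j G B ∅
      (fun W => lo G W = Q \ A) (fun W => lo B W = Q' \ A') hi hj hG hB hGc hBc (by simp)
      (by linarith)
    rw [hp1, hp2, hGt, hBt] at hfin
    omega
  obtain ⟨φ, hφ1, hφ2⟩ := hmfin V Q Q' D hKA.2.1 hKB.2.1 hC.odd hyp
  have hm : 2 ^ 20 * d ≤ Fintype.card V := by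
    rw [hV]
    refine le_trans ?_ hlarge
    exact Nat.mul_le_mul_right _ (by norm_num)
  have hEA : ∑ A ∈ ev Q, ov d 𝓐 A ≤ 4 * (m - 3).choose (d - 1) := by
    have := hexact d hd V hm 𝓐 hC.fa hKA.1 Q hKA.2.1 hKA.2.2.1 hKA.2.2.2.1
    rw [hV] at this
    exact this
  have hEB : ∑ A ∈ ev Q', ov d 𝓑 A ≤ 4 * (m - 3).choose (d - 1) := by
    have := hexact d hd V hm 𝓑 hC.fb hKB.1 Q' hKB.2.1 hKB.2.2.1 hKB.2.2.2.1
    rw [hV] at this
    exact this
  have hEB' : ∑ A ∈ ev Q, ov d 𝓑 (φ A) ≤ 4 * (m - 3).choose (d - 1) := by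
    refine le_trans ?_ hEB
    rw [← sum_image (f := fun B => ov d 𝓑 B) (g := φ) (s := ev Q)]
    · refine sum_le_sum_of_subset ?_
      intro B hB
      rw [mem_image] at hB
      obtain ⟨A, hA, rfl⟩ := hB
      rw [mem_ev] at hA
      rw [mem_ev]
      have := hφ1 A hA.1 hA.2
      exact ⟨this.1, this.2.1⟩
    · intro A hA B hB hAB
      have hA' := mem_ev.1 (mem_coe.1 hA)
      have hB' := mem_ev.1 (mem_coe.1 hB)
      exact hφ2 A hA'.1 hA'.2 B hB'.1 hB'.2 hAB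
  have hsum : ∑ A ∈ ev Q, (ov d 𝓐 A + ov d 𝓑 (φ A)) ≤ ∑ _A ∈ ev Q, 2 * (m - 3).choose (d - 1) := by
    rw [sum_add_distrib, sum_const, card_ev hKA.2.1, smul_eq_mul]
    omega
  have hne : (ev Q).Nonempty := by
    rw [← card_pos, card_ev hKA.2.1]
    norm_num
  obtain ⟨A, hA, hle⟩ := exists_le_of_sum_le hne hsum
  rw [mem_ev] at hA
  obtain ⟨-, -, h1⟩ := hφ1 A hA.1 hA.2
  obtain ⟨x, hx⟩ := card_eq_one.1 h1
  refine ⟨A, x, hA.2, ?_⟩
  have h2 : symmDiff (symmDiff A {x}) D = φ A := by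
    rw [← hx]
    have h3 : symmDiff (symmDiff A (symmDiff (symmDiff A (φ A)) D)) D = φ A := by
      rw [symmDiff_assoc A (φ A) D, symmDiff_symmDiff_cancel_left, symmDiff_symmDiff_cancel_right]
    exact h3
  rw [h2, hV]
  exact hle

end Pool.Agent.H12.Diam
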