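import Pool.Agent.H12.Diam.Kov

set_option autoImplicit false

/-! Project DIAM, DIAM28: one class of type K, the other of type S. -/

namespace Pool.Agent.H12.Diam

open Finset Pool.Agent.H30.Diam Pool.Agent.H92.Diam

theorem ks_aux {V : Type} [DecidableEq V] {Q A D L T : Finset V} {x y v : V} (hA : A ⊆ Q)
    (hx : x ∉ Q) (hv : v ∉ Q) (hyv : y ≠ v) (hxy : x ≠ y) (hxv : x ≠ v) (hy : y ∉ Q)
    (hD : D = symmDiff (symmDiff A {x}) {y, v}) (hL : L = {y}) (hT : T ⊆ Q) :
    (symmDiff T A).card + 2 ≤ (symmDiff (symmDiff T L) D).card := by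
  have hxA : x ∉ A := fun h => hx (hA h)
  have hvA : v ∉ A := fun h => hv (hA h)
  have hxT : x ∉ T := fun h => hx (hT h)
  have hvT : v ∉ T := fun h => hv (hT h)
  have h1 : ({x, v} : Finset V) ∪ symmDiff T A ⊆ symmDiff (symmDiff T L) D := by
    intro w hw
    rw [hD, hL]
    rcases mem_union.1 hw with hw | hw
    · rcases mem_insert.1 hw with rfl | hw
      · simp only [mem_symmDiff, mem_insert, mem_singleton]
        tauto
      · rw [mem_singleton] at hw
        subst hw
        have hvy : w ≠ y := hyv.symm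
        have hvx : w ≠ x := hxv.symm
        simp only [mem_symmDiff, mem_insert, mem_singleton]
        tauto
    · have hwQ : w ∈ Q := by
        rw [mem_symmDiff] at hw
        rcases hw with h | h
        · exact hT h.1
        · exact hA h.1
      have h2 : w ≠ x := fun h => hx (h ▸ hwQ)
      have h3 : w ≠ y := fun h => hy (h ▸ hwQ)
      have h4 : w ≠ v := fun h => hv (h ▸ hwQ)
      simp only [mem_symmDiff, mem_insert, mem_singleton] at hw ⊢
      tauto
  have h2 : Disjoint ({x, v} : Finset V) (symmDiff T A) := by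
    rw [disjoint_left]
    intro w hw hw'
    rw [mem_symmDiff] at hw'
    rcases mem_insert.1 hw with rfl | hw
    · tauto
    · rw [mem_singleton] at hw
      subst hw
      tauto
  have h3 := card_le_card h1
  rw [card_union_of_disjoint h2, card_pair hxv] at h3
  omega

theorem ks_impossible {V : Type} [DecidableEq V] {Q A D L : Finset V} {x y v : V}
    (hQ : Q.card = 3) (hAe : Even A.card) (hA : A ⊆ Q)
    (hx : x ∉ Q) (hy : y ∉ Q) (hv : v ∉ Q) (hyv : y ≠ v) (hxy : x ≠ y) (hxv : x ≠ v)
    (hD : D = symmDiff (symmDiff A {x}) {y, v}) (hL : L = {y})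
    (h1 : ∀ z ∈ Q, (symmDiff (symmDiff {z} L) D).card ≤ 2 + L.card)
    (h2 : (symmDiff (symmDiff Q L) D).card ≤ 2 + L.card) : False := by
  have hLc : L.card = 1 := by rw [hL, card_singleton]
  have h3 := ks_aux hA hx hv hyv hxy hxv hy hD hL (Subset.refl Q)
  rw [hLc] at h2
  have h4 : (symmDiff Q A).card = Q.card - A.card := by
    rw [symmDiff_comm, symmDiff_of_le hA]
    exact card_sdiff_of_subset hA
  have hA3 := card_le_card hA
  rw [hQ] at hA3 h4
  rw [Nat.even_iff] at hAe
  have hA2 : A.card = 2 := by omega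
  obtain ⟨z, hz, hzA⟩ : ∃ z ∈ Q, z ∉ A := exists_mem_notMem_of_card_lt_card (by omega)
  have h5 := ks_aux hA hx hv hyv hxy hxv hy hD hL (singleton_subset_iff.2 hz)
  have h6 := h1 z hz
  have h7 : (symmDiff {z} A).card = 3 := by
    have hdis : Disjoint ({z} : Finset V) A := disjoint_singleton_left.2 hzA
    rw [card_symmDiff_disj hdis, card_singleton, hA2]
  omega

/-- the combinatorial lemma, with `x ∈ Q` in the second case -/
theorem ksfin' (hks : S_ksfin) (V : Type) [DecidableEq V] (Q D L : Finset V) (hQ : Q.card = 3)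
    (hDo : D.card % 2 = 1) (hL : L.card ≤ 1)
    (h1 : ∀ z ∈ Q, (symmDiff (symmDiff {z} L) D).card ≤ 2 + L.card)
    (h2 : (symmDiff (symmDiff Q L) D).card ≤ 2 + L.card) :
    (∃ A x, A ⊆ Q ∧ Even A.card ∧ symmDiff A {x} = D) ∨
    (∃ (y v : V) (A : Finset V) (x : V), y ∉ Q ∧ v ∉ Q ∧ y ≠ v ∧ A ⊆ Q ∧ Even A.card ∧ x ∈ Q ∧
      symmDiff (symmDiff A {x}) D = {y, v} ∧ (L = {y} ∨ L = {v})) := by
  rcases hks V Q D L hQ hDo hL h1 h2 with h | ⟨y, v, A, x, hy, hv, hyv, hA, hAe, hD, hLyv⟩
  · exact Or.inl h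
  · by_cases hx : x ∈ Q
    · exact Or.inr ⟨y, v, A, x, hy, hv, hyv, hA, hAe, hx, hD, hLyv⟩
    · have hD' : D = symmDiff (symmDiff A {x}) {y, v} := by
        rw [← hD, symmDiff_symmDiff_cancel_left]
      by_cases hxy : x = y
      · left
        refine ⟨A, v, hA, hAe, ?_⟩
        rw [hD', symmDiff_assoc, hxy]
        congr 1
        ext w
        simp only [mem_symmDiff, mem_insert, mem_singleton]
        constructor
        · rintro rfl
          exact Or.inr ⟨Or.inr rfl, fun h => hyv h.symm⟩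
        · rintro (⟨h, h'⟩ | ⟨h, h'⟩)
          · exact absurd (Or.inl h) h'
          · exact h.resolve_left h'
      · by_cases hxv : x = v
        · left
          refine ⟨A, y, hA, hAe, ?_⟩
          rw [hD', symmDiff_assoc, hxv]
          congr 1
          ext w
          simp only [mem_symmDiff, mem_insert, mem_singleton]
          constructor
          · rintro rfl
            exact Or.inr ⟨Or.inl rfl, hyv⟩
          · rintro (⟨h, h'⟩ | ⟨h, h'⟩)
            · exact absurd (Or.inr h) h'
            · exact h.resolve_right h'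
        · exfalso
          rcases hLyv with hL' | hL'
          · exact ks_impossible hQ hAe hA hx hy hv hyv hxy hxv hD' hL' h1 h2
          · exact ks_impossible hQ hAe hA hx hv hy hyv.symm hxv hxy
              (by rw [hD', pair_comm]) hL' h1 h2

/-- the outer part of `D` in the second case -/
theorem sdiff_of_second {V : Type} [DecidableEq V] {Q A D : Finset V} {x y v : V}
    (hy : y ∉ Q) (hv : v ∉ Q) (hA : A ⊆ Q) (hx : x ∈ Q)
    (hD : symmDiff (symmDiff A {x}) D = {y, v}) : D \ Q = {y, v} := by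
  have hD' : D = symmDiff (symmDiff A {x}) {y, v} := by
    rw [← hD, symmDiff_symmDiff_cancel_left]
  rw [hD']
  ext w
  simp only [mem_sdiff, mem_symmDiff, mem_insert, mem_singleton]
  constructor
  · rintro ⟨h1, h2⟩
    have h3 : w ∉ A := fun h => h2 (hA h)
    have h4 : w ≠ x := fun h => h2 (h ▸ hx)
    tauto
  · intro h
    have h2 : w ∉ Q := by
      rcases h with rfl | rfl
      · exact hy
      · exact hv
    have h3 : w ∉ A := fun h => h2 (hA h)
    have h4 : w ≠ x := fun h => h2 (h ▸ hx)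
    tauto

theorem ks (htail : S_tail) (hsamp : S_samp) (hlow : S_low) (hksfin : S_ksfin) : S_ks := by
  intro d m q hpar V _ _ hV 𝓐 𝓑 D Q hC hKA hSB
  have hd := hpar.d1
  have hq0 := hpar.q0
  have hq1 := hpar.q1
  have hq1' : q ≤ 1 := hq1.trans (by norm_num)
  have hlarge := hpar.large
  have hU := Pool.Agent.H92.Diam.U_nonneg d m
  have hU1 := hpar.U_pos
  obtain ⟨hGB, hB2⟩ := hSB
  rw [hV] at hB2
  have hdel : del ≤ 1 / 1000000 := by unfold del; norm_num
  have htau0 : tau ≤ 1 / 1000000 := by unfold tau; norm_num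
  have hB2' : ((lev 𝓑 (d + 2)).card : ℝ) ≤ 1 / 1000000 * U d m :=
    hB2.trans (mul_le_mul_of_nonneg_right hdel hU)
  have hhigh := high_le hC.fb hGB
  rw [hV] at hhigh
  have hQ := hKA.2.1
  -- from a real estimate to the goal
  have hfin : ∀ (A : Finset V) (x : V) (E : Finset V), A ⊆ Q → Even A.card →
      symmDiff (symmDiff A {x}) D = E → (ov d 𝓑 E : ℝ) ≤ 9 / 10 * U d m → Goal d 𝓐 𝓑 D := by
    intro A x E hA hAe hE hov
    refine ⟨A, x, hAe, ?_⟩
    have h1 := kov d m q hpar V hV 𝓐 Q hC.fa hKA A hA hAe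
    rw [hE, hV]
    have h2 : (ov d 𝓐 A : ℝ) + ov d 𝓑 E ≤ 2 * U d m := by linarith
    unfold U at h2
    exact_mod_cast h2
  by_cases h0 : (𝓑.card : ℝ) ≤ 9 / 10 * U d m
  · have hne : 0 < Fintype.card V := by
      rw [hV]
      omega
    obtain ⟨x⟩ := Fintype.card_pos_iff.1 hne
    refine hfin ∅ x _ (empty_subset _) (by simp) rfl (le_trans ?_ h0)
    unfold ov
    exact_mod_cast card_filter_le _ _
  push Not at h0
  -- the leftover of large subfamilies
  have hclaim : ∀ B' ⊆ lev 𝓑 d, tau * U d m ≤ B'.card → ∃ L : Finset V, L.card ≤ 1 ∧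
      (∃ F ∈ B', L ⊆ F) ∧ (∀ z ∈ Q, (symmDiff (symmDiff {z} L) D).card ≤ 2 + L.card) ∧
      (symmDiff (symmDiff Q L) D).card ≤ 2 + L.card := by
    intro B' hB' hBc
    have hone : ∀ t : Finset V, ((∃ z ∈ Q, t = {z}) ∨ t = Q) →
        Ev q (fun W => ind (¬ (symmDiff (symmDiff t (lo B' W)) D).card ≤ 2 + (lo B' W).card)) ≤
          1010 * q := by
      intro t ht
      by_contra hcon
      rw [not_le] at hcon
      obtain ⟨i, hi, G, hG, hGc, hGt, hGp⟩ := popK htail hpar hV hKA ht
      obtain ⟨W, W', -, hp1, hp2, -, -, -, -, -, -, h3⟩ := hsamp d m q hpar V hV 𝓐 𝓑 D hC i 0 G B'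
        ∅ (fun W => lo G W = t)
        (fun W => ¬ (symmDiff (symmDiff t (lo B' W)) D).card ≤ 2 + (lo B' W).card) hi (by norm_num)
        hG (by simpa using hB') hGc hBc (by simp) (by linarith)
      rw [hp1, hGt] at h3
      apply hp2
      omega
    obtain ⟨hne, htl⟩ := Pool.Agent.H82.Diam.tail_le htail hpar hV (j := 0) (by norm_num)
      (by simpa using hB') hBc
    have htl' : Ev q (fun W => ind (¬ (lo B' W).card ≤ 1)) ≤ q := by
      have := Pool.Agent.H82.Diam.Ev_compl q (fun W => (lo B' W).card ≤ 1)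
      rw [this]
      simp only [mul_zero, zero_add] at htl
      linarith
    let Ts : Finset (Finset V) := insert Q (Q.image (fun z => {z}))
    have hTs : ∀ t ∈ Ts, (∃ z ∈ Q, t = {z}) ∨ t = Q := by
      intro t ht
      simp only [Ts, mem_insert, mem_image] at ht
      rcases ht with ht | ⟨z, hz, rfl⟩
      · exact Or.inr ht
      · exact Or.inl ⟨z, hz, rfl⟩
    have hTsc : Ts.card ≤ 4 := by
      refine (card_insert_le _ _).trans ?_
      have := card_image_le (s := Q) (f := fun z => ({z} : Finset V))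
      omega
    have hsumE : Ev q (fun W => (∑ t ∈ Ts,
        ind (¬ (symmDiff (symmDiff t (lo B' W)) D).card ≤ 2 + (lo B' W).card)) +
        ind (¬ (lo B' W).card ≤ 1)) < 1 := by
      rw [Ev_add, Ev_sum]
      have h4 : ∑ t ∈ Ts, Ev q (fun W =>
          ind (¬ (symmDiff (symmDiff t (lo B' W)) D).card ≤ 2 + (lo B' W).card)) ≤
          ∑ _t ∈ Ts, 1010 * q := sum_le_sum fun t ht => hone t (hTs t ht)
      rw [sum_const, nsmul_eq_mul] at h4
      have h5 : (Ts.card : ℝ) * (1010 * q) ≤ 4 * (1010 * q) := by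
        refine mul_le_mul_of_nonneg_right ?_ (by positivity)
        exact_mod_cast hTsc
      have h6 : q ≤ 1 / 100000 := hq1.trans (by norm_num)
      linarith
    obtain ⟨W, hW⟩ : ∃ W : Finset V, (∑ t ∈ Ts,
        ind (¬ (symmDiff (symmDiff t (lo B' W)) D).card ≤ 2 + (lo B' W).card)) +
        ind (¬ (lo B' W).card ≤ 1) < 1 := by
      by_contra hcon
      have h7 := Ev_mono hq0.le hq1' (f := fun _ => (1 : ℝ)) (g := fun W => (∑ t ∈ Ts,
        ind (¬ (symmDiff (symmDiff t (lo B' W)) D).card ≤ 2 + (lo B' W).card)) +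
        ind (¬ (lo B' W).card ≤ 1)) (fun W => not_lt.1 (fun h => hcon ⟨W, h⟩))
      rw [Ev_const] at h7
      linarith
    have hind : ∀ t ∈ Ts, (symmDiff (symmDiff t (lo B' W)) D).card ≤ 2 + (lo B' W).card := by
      intro t ht
      by_contra hcon
      have h8 : ind (¬ (symmDiff (symmDiff t (lo B' W)) D).card ≤ 2 + (lo B' W).card) ≤
          ∑ t ∈ Ts, ind (¬ (symmDiff (symmDiff t (lo B' W)) D).card ≤ 2 + (lo B' W).card) :=
        single_le_sum (f := fun t =>
          ind (¬ (symmDiff (symmDiff t (lo B' W)) D).card ≤ 2 + (lo B' W).card))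
          (fun t _ => ind_nonneg _) ht
      rw [ind_true hcon] at h8
      linarith [ind_nonneg (¬ (lo B' W).card ≤ 1)]
    refine ⟨lo B' W, ?_, ⟨wit B' W, wit_mem hne W, lo_sub B' W⟩, ?_, ?_⟩
    · by_contra hcon
      have h8 : 0 ≤ ∑ t ∈ Ts,
          ind (¬ (symmDiff (symmDiff t (lo B' W)) D).card ≤ 2 + (lo B' W).card) :=
        sum_nonneg fun t _ => ind_nonneg _
      rw [ind_true hcon] at hW
      linarith
    · intro z hz
      exact hind {z} (by simp only [Ts, mem_insert, mem_image]; exact Or.inr ⟨z, hz, rfl⟩)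
    · exact hind Q (mem_insert_self _ _)
  -- the middle level is large
  have hcov : 𝓑 ⊆ lev 𝓑 d ∪ lev 𝓑 (d + 2) ∪ 𝓑.filter (fun F => d + 4 ≤ F.card) ∪
      𝓑.filter (fun F => F.card < d) := by
    intro F hF
    have hp := hC.fb.par F hF
    simp only [mem_union, lev, mem_filter, hF, true_and]
    omega
  have hcovc : (𝓑.card : ℝ) ≤ (lev 𝓑 d).card + (lev 𝓑 (d + 2)).card +
      (𝓑.filter (fun F => d + 4 ≤ F.card)).card + (𝓑.filter (fun F => F.card < d)).card := by
    have h := (card_le_card hcov).trans ((card_union_le _ _).trans (Nat.add_le_add_right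
      ((card_union_le _ _).trans (Nat.add_le_add_right (card_union_le _ _) _)) _))
    exact_mod_cast h
  have hlw := (hlow d m q hpar V hV).1 𝓑 hC.fb
  have hmid : tau * U d m ≤ (lev 𝓑 d).card := by
    have h9 : tau * U d m ≤ 1 / 1000000 * U d m := mul_le_mul_of_nonneg_right htau0 hU
    linarith
  have hov0 : (ov d 𝓑 ∅ : ℝ) ≤ 9 / 10 * U d m := by
    have h9 : 𝓑.filter (fun F => d < (symmDiff F ∅).card) ⊆
        lev 𝓑 (d + 2) ∪ 𝓑.filter (fun F => d + 4 ≤ F.card) := by
      intro F hF
      rw [mem_filter] at hF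
      have hp := hC.fb.par F hF.1
      have h10 : symmDiff F ∅ = F := by
        rw [← bot_eq_empty, symmDiff_bot]
      rw [h10] at hF
      simp only [mem_union, lev, mem_filter, hF.1, true_and]
      omega
    have h11 : (ov d 𝓑 ∅ : ℝ) ≤ (lev 𝓑 (d + 2)).card +
        (𝓑.filter (fun F => d + 4 ≤ F.card)).card := by
      unfold ov
      exact_mod_cast (card_le_card h9).trans (card_union_le _ _)
    linarith
  obtain ⟨L, hL1, -, hL2, hL3⟩ := hclaim (lev 𝓑 d) (Subset.refl _) hmid
  rcases ksfin' hksfin V Q D L hQ hC.odd hL1 hL2 hL3 with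
    ⟨A, x, hA, hAe, hAx⟩ | ⟨y, v, A, x, hy, hv, hyv, hA, hAe, hx, hAx, -⟩
  · refine hfin A x ∅ hA hAe ?_ hov0
    rw [hAx, symmDiff_self, bot_eq_empty]
  · -- the centre `{y, v}` for the second class
    by_cases hB' : tau * U d m ≤ ((lev 𝓑 d).filter (fun F => Disjoint F {y, v})).card
    · obtain ⟨L', hL1', ⟨F, hF, hLF⟩, hL2', hL3'⟩ := hclaim _ (filter_subset _ _) hB'
      have hdis : Disjoint L' {y, v} := disjoint_of_subset_left hLF (mem_filter.1 hF).2
      rcases ksfin' hksfin V Q D L' hQ hC.odd hL1' hL2' hL3' with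
        ⟨A', x', hA', hAe', hAx'⟩ | ⟨y', v', A', x', hy', hv', hyv', hA', hAe', hx', hAx', hLyv⟩
      · refine hfin A' x' ∅ hA' hAe' ?_ hov0
        rw [hAx', symmDiff_self, bot_eq_empty]
      · exfalso
        have e1 := sdiff_of_second hy hv hA hx hAx
        have e2 := sdiff_of_second hy' hv' hA' hx' hAx'
        rw [e1] at e2
        rw [e2, disjoint_left] at hdis
        rcases hLyv with h | h
        · exact hdis (a := y') (by rw [h]; exact mem_singleton_self _) (by simp)
        · exact hdis (a := v') (by rw [h]; exact mem_singleton_self _) (by simp)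
    · push Not at hB'
      refine hfin A x {y, v} hA hAe hAx ?_
      have h9 : 𝓑.filter (fun F => d < (symmDiff F {y, v}).card) ⊆
          (lev 𝓑 d).filter (fun F => Disjoint F {y, v}) ∪ lev 𝓑 (d + 2) ∪
            𝓑.filter (fun F => d + 4 ≤ F.card) := by
        intro F hF
        rw [mem_filter] at hF
        have hp := hC.fb.par F hF.1
        have hs := card_symmDiff_add F ({y, v} : Finset V)
        rw [card_pair hyv] at hs
        simp only [mem_union, lev, mem_filter, hF.1, true_and]
        by_cases hdis : Disjoint F {y, v}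
        · simp only [hdis, and_true]
          omega
        · have h10 : 0 < (F ∩ {y, v}).card := by
            rw [card_pos]
            rw [disjoint_iff_inter_eq_empty] at hdis
            exact nonempty_iff_ne_empty.2 hdis
          omega
      have h11 : (ov d 𝓑 {y, v} : ℝ) ≤ ((lev 𝓑 d).filter (fun F => Disjoint F {y, v})).card +
          (lev 𝓑 (d + 2)).card + (𝓑.filter (fun F => d + 4 ≤ F.card)).card := by
        unfold ov
        exact_mod_cast (card_le_card h9).trans ((card_union_le _ _).trans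
          (Nat.add_le_add_right (card_union_le _ _) _))
      have h12 : tau * U d m ≤ 1 / 1000000 * U d m := mul_le_mul_of_nonneg_right htau0 hU
      linarith

end Pool.Agent.H12.Diam
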