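import Pool.Agent.H12.Diam.Common

set_option autoImplicit false

/-! Project DIAM, DIAM27: overflow of type K at its four centres. -/

namespace Pool.Agent.H12.Diam

open Finset Pool.Agent.H30.Diam Pool.Agent.H92.Diam

theorem kov : S_kov := by
  intro d m q hpar V _ _ hV 𝓔 Q hE hK A hA hAe
  obtain ⟨hG, hQ, h1, h0, -, -⟩ := hK
  have hU := Pool.Agent.H92.Diam.U_nonneg d m
  have hd := hpar.d1
  have hhigh := high_le hE hG
  rw [hV] at h1 h0 hhigh
  rw [Nat.even_iff] at hAe
  have hcov : 𝓔.filter (fun F => d < (symmDiff F A).card) ⊆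
      cl 𝓔 Q (Q \ A) (d - 1) ∪ (lev 𝓔 (d + 2)).filter (fun F => ¬ Q ⊆ F) ∪
        (lev 𝓔 d).filter (fun F => Disjoint F Q) ∪ 𝓔.filter (fun F => d + 4 ≤ F.card) := by
    intro F hF
    rw [mem_filter] at hF
    obtain ⟨hF, hlt⟩ := hF
    have hp := hE.par F hF
    have hs := card_symmDiff_sub hA F
    have htr := card_trace Q F
    have hmod := card_symmDiff_mod (F ∩ Q) A
    have htA : (symmDiff (F ∩ Q) A).card ≤ (F ∩ Q).card + A.card := by
      rw [symmDiff_def, sup_eq_union]
      exact (card_union_le _ _).trans (add_le_add (card_le_card sdiff_subset)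
        (card_le_card sdiff_subset))
    have hsubQ : symmDiff (F ∩ Q) A ⊆ Q := by
      rw [symmDiff_def, sup_eq_union]
      exact union_subset (sdiff_subset.trans inter_subset_right) (sdiff_subset.trans hA)
    have h3 := card_le_card hsubQ
    rw [hQ] at h3
    have hA3 := card_le_card hA
    rw [hQ] at hA3
    simp only [mem_union]
    by_cases hbig : d + 4 ≤ F.card
    · right
      rw [mem_filter]
      exact ⟨hF, hbig⟩
    · left
      have hcase : F.card = d + 2 ∨ F.card = d := by omega
      rcases hcase with hc | hc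
      · by_cases hQF : Q ⊆ F
        · left
          left
          rw [mem_cl]
          have h4 : F ∩ Q = Q := inter_eq_right.2 hQF
          rw [h4] at hs htr hmod h3
          have h5 : (symmDiff Q A).card = Q.card - A.card := by
            rw [symmDiff_comm, symmDiff_of_le hA]
            exact card_sdiff_of_subset hA
          rw [hQ] at htr
          rw [hQ] at h5
          have h6 : A.card = 0 := by omega
          have h7 : A = ∅ := card_eq_zero.1 h6
          refine ⟨hF, ?_, by omega⟩
          rw [h4, h7, sdiff_empty]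
        · left
          right
          rw [mem_filter, lev, mem_filter]
          exact ⟨⟨hF, hc⟩, hQF⟩
      · by_cases hdis : Disjoint F Q
        · right
          rw [mem_filter, lev, mem_filter]
          exact ⟨⟨hF, hc⟩, hdis⟩
        · left
          left
          have h4 : 0 < (F ∩ Q).card := by
            rw [card_pos]
            rw [disjoint_iff_inter_eq_empty] at hdis
            exact nonempty_iff_ne_empty.2 hdis
          have h5 : (symmDiff (F ∩ Q) A).card = 3 ∧ (F ∩ Q).card = 1 := by omega
          have h6 : symmDiff (F ∩ Q) A = Q :=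
            eq_of_subset_of_card_le hsubQ (by rw [hQ, h5.1])
          have h7 : F ∩ Q = Q \ A := by
            have h8 : symmDiff (symmDiff (F ∩ Q) A) A = F ∩ Q := symmDiff_symmDiff_cancel_right _ _
            rw [← h8, h6, symmDiff_comm, symmDiff_of_le hA]
          rw [mem_cl]
          exact ⟨hF, h7, by omega⟩
  have hcl : ((cl 𝓔 Q (Q \ A) (d - 1)).card : ℝ) ≤ U d m := by
    unfold U
    rw [← hV]
    exact_mod_cast card_cl_le hQ (Q \ A) (d - 1)
  have hsum : (ov d 𝓔 A : ℝ) ≤ (cl 𝓔 Q (Q \ A) (d - 1)).card +
      ((lev 𝓔 (d + 2)).filter (fun F => ¬ Q ⊆ F)).card +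
      ((lev 𝓔 d).filter (fun F => Disjoint F Q)).card +
      (𝓔.filter (fun F => d + 4 ≤ F.card)).card := by
    have h := card_le_card hcov
    have h' := h.trans ((card_union_le _ _).trans (Nat.add_le_add_right
      ((card_union_le _ _).trans (Nat.add_le_add_right (card_union_le _ _) _)) _))
    unfold ov
    exact_mod_cast h'
  have h9 : 3 * tau * U d m + tau * U d m ≤ 1 / 1000 * U d m := by
    rw [← add_mul]
    refine mul_le_mul_of_nonneg_right ?_ hU
    unfold tau
    norm_num
  linarith

end Pool.Agent.H12.Diam
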